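import Mathlib
import Pool.Agent.Lib.MP_04add8_pr.U.LowerU
import Pool.Agent.Lib.MP_04add8_pr.U.FinU
import Pool.Agent.Lib.MP_04add8_pr.U.WOnlyU
import Pool.Agent.Lib.MP_04add8_pr.U.WBdd
import Pool.Agent.Lib.MP_04add8_pr.U.KapC
import Pool.Agent.Lib.MP_04add8_pr.Cv.ExistC
import Pool.Agent.Lib.MP_04add8_pr.Cv.ThrB
import Pool.Agent.Lib.MP_04add8_pr.Cv.UpperTwo

open MeasureTheory ProbabilityTheory Filter Topology
open scoped ENNReal
open Pool.Agent.Lib.MP_04add8_pr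

namespace Pool.Agent.Results.MP_04add8_pr.AllConcave

/-- Exact asymptotics of the stationary waiting time of the two-server queue for every load in
`(1, 2)`, every interarrival law of finite mean and every service law whose tail is asymptotic to
`exp (-h)` for a concave `h` (`x ^ C h'` nondecreasing, `h' → 0`, `x h' → ∞`) with the separation
condition on `b`; no regular variation is assumed. Whitt's formula is decided when one big job is
cheaper than two. -/
theorem result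
    (μ ν : Measure ℝ) [IsProbabilityMeasure μ] [IsProbabilityMeasure ν]
    (hμ : μ (Set.Iio 0) = 0) (hν : ν (Set.Iio 0) = 0) (hνi : Integrable (fun t : ℝ => t) ν)
    (h q : ℝ → ℝ) (x₀ : ℝ) (hx₀ : 0 ≤ x₀)
    (hd : ∀ x : ℝ, x₀ < x → HasDerivAt h (q x) x) (hq : ∀ x : ℝ, x₀ < x → 0 < q x)
    (hanti : ∀ x y : ℝ, x₀ < x → x ≤ y → q y ≤ q x)
    (hcurv : ∃ C : ℝ, ∀ x y : ℝ, x₀ < x → x ≤ y → x ^ C * q x ≤ y ^ C * q y)
    (hlim : Tendsto q atTop (𝓝 0)) (hbig : Tendsto (fun x : ℝ => x * q x) atTop atTop)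
    (htail : Tendsto (fun x : ℝ => μ.real (Set.Ioi x) / Real.exp (-(h x))) atTop (𝓝 1))
    (ρ : ℝ) (hρ : ρ = (∫ s, s ∂μ) / (∫ t, t ∂ν)) (hρ1 : 1 < ρ) (hρ2 : ρ < 2)
    (b : ℝ → ℝ) (hb0 : ∀ᶠ x : ℝ in atTop, x₀ < b x)
    (hb1 : Tendsto (fun x : ℝ => (h (b x) - b x * q (b x)) / Real.log x) atTop atTop)
    (hb2 : Tendsto (fun x : ℝ => q (b x) / q x) atTop atTop) :
    (∃ π : Measure (ℝ × ℝ), IsStationaryKW μ ν π) ∧
    ∀ π : Measure (ℝ × ℝ), IsStationaryKW μ ν π →
      Tendsto (fun x : ℝ => π.real {w | x < w.1} /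
        (Real.exp (-(Gen.tRate μ (U.betaStar μ ν) x)) / ((2 - ρ) * (∫ t, t ∂ν)) *
            (integratedTail μ (ρ / (ρ - 1) * x) / μ.real (Set.Ioi (ρ / (ρ - 1) * x))) +
          2 / ((2 - ρ) ^ 3 * (∫ t, t ∂ν) ^ 2) * integratedTail μ x ^ 2)) atTop (𝓝 1) ∧
      (∀ δ : ℝ, 0 < δ → (∀ᶠ x : ℝ in atTop, (2 + δ) * h x ≤ h (ρ / (ρ - 1) * x)) →
        Tendsto (fun x : ℝ => π.real {w | x < w.1} /
          (2 / ((2 - ρ) ^ 3 * (∫ t, t ∂ν) ^ 2) * integratedTail μ x ^ 2)) atTop (𝓝 1)) ∧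
      ∀ δ : ℝ, 0 < δ → (∀ᶠ x : ℝ in atTop, (1 + δ) * h (ρ / (ρ - 1) * x) ≤ 2 * h x) →
        ((∃ γ η : ℝ, 0 < γ ∧ 0 < η ∧ Tendsto (fun x : ℝ => π.real {w | x < w.1} /
            (γ * integratedTail μ (η * x))) atTop (𝓝 1)) ↔
          ∃ c : ℝ, Tendsto (fun x : ℝ => x * (q x / (ρ - 1) - U.betaStar μ ν (q x))) atTop
            (𝓝 c)) ∧
        ((∃ η c₁ c₂ : ℝ, 0 < η ∧ 0 < c₁ ∧ ∀ᶠ x : ℝ in atTop,
            c₁ * integratedTail μ (η * x) ≤ π.real {w | x < w.1} ∧
            π.real {w | x < w.1} ≤ c₂ * integratedTail μ (η * x)) ↔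
          ∃ C : ℝ, ∀ᶠ x : ℝ in atTop,
            x * (q x / (ρ - 1) - U.betaStar μ ν (q x)) ≤ C) ∧
        (∀ c : ℝ, Tendsto (fun x : ℝ => x * (q x / (ρ - 1) - U.betaStar μ ν (q x))) atTop
            (𝓝 c) →
          Tendsto (fun x : ℝ => π.real {w | x < w.1} /
            (Real.exp (c / (ρ / (ρ - 1))) / ((2 - ρ) * ∫ t, t ∂ν) *
              integratedTail μ (ρ / (ρ - 1) * x))) atTop (𝓝 1)) ∧
        (Integrable (fun t : ℝ => t ^ 2) ν → ∀ c : ℝ,
          (Tendsto (fun x : ℝ => x * q x ^ 2) atTop (𝓝 c) ↔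
            Tendsto (fun x : ℝ => x * (q x / (ρ - 1) - U.betaStar μ ν (q x))) atTop
              (𝓝 (c * (Var[fun s => s; μ] + ρ ^ 2 * Var[fun t => t; ν]) /
                (2 * (ρ - 1) ^ 3 * ∫ t, t ∂ν))))) := by
  obtain ⟨hm, hgt, hlt, hη0⟩ := load_facts (a := 1) one_pos hν hρ hρ1 hρ2
  obtain ⟨g, g', S, hg, hg'⟩ := Cv.exists_stdC μ ν hμ hν hνi h q x₀ hx₀ hd hq hanti hcurv hlim
    hbig htail ρ hρ hρ1 hρ2
  obtain ⟨B, v, T⟩ := Cv.Thr.of_sep S.haz hx₀ hd hq hanti hg hg' b hb0 hb1 hb2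
  have hη : Gen.eta μ ν = ρ / (ρ - 1) := by
    unfold Gen.eta
    rw [hη0]
  have hηpos : 0 < ρ / (ρ - 1) := div_pos (by linarith) (by linarith)
  have hηx : Tendsto (fun x : ℝ => ρ / (ρ - 1) * x) atTop atTop :=
    tendsto_id.const_mul_atTop hηpos
  obtain ⟨h1, -, -⟩ := U.finU_facts hν hρ hρ1 hρ2
  refine ⟨Cv.gexists_stationary S, fun π hπ => ?_⟩
  have hlow : ∀ ω : ℝ, 0 < ω → ω < 1 → ω < Gen.K2 μ ν → ∀ᶠ x : ℝ in atTop,
      ENNReal.ofReal ((1 - ω) * U.fS g g' μ ν (U.betaStar μ ν) x +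
        (Gen.K2 μ ν - ω) * (Gen.Qf g g' x) ^ 2) ≤ π {w | x < w.1} := by
    intro ω hω hω1 hω2
    filter_upwards [U.glowerU S T hω hω1 hω2] with x hx
    exact hx π hπ
  have hE := U.gexactU_Q S (U.gexactU_of S T hπ hlow)
  have hK := U.kapR S
  have hkap : ∀ θ : ℝ, θ / (ρ - 1) - U.betaStar μ ν θ = U.kapS μ ν θ := by
    intro θ
    unfold U.kapS
    rw [hη]
    have : ρ - 1 ≠ 0 := by linarith
    field_simp
    ring
  refine ⟨U.finalU S T hρ hρ1 hρ2 hπ hlow, ?_, ?_⟩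
  · intro δ hδ hreg
    have h2 : ∀ᶠ x : ℝ in atTop, (2 + δ) * g x ≤ g (Gen.eta μ ν * x) := by
      filter_upwards [hreg, hg, hηx.eventually hg] with x h1 h3 h4
      rw [hη, h3, h4]
      exact h1
    refine Cv.final_two S hρ hρ1 hρ2 hπ ?_
    intro ω hω
    filter_upwards [Cv.gupperII S T hδ h2 hω] with x hx
    exact hx π hπ
  · intro δ hδ hreg
    have hdom : ∀ᶠ x : ℝ in atTop, (1 + δ) * g (Gen.eta μ ν * x) ≤ 2 * g x := by
      filter_upwards [hreg, hg, hηx.eventually hg] with x h1 h3 h4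
      rw [hη, h3, h4]
      exact h1
    have hcg : ∀ c : ℝ, Tendsto (fun x : ℝ => x * (q x / (ρ - 1) - U.betaStar μ ν (q x)))
        atTop (𝓝 c) ↔ Tendsto (fun x : ℝ => x * U.kapS μ ν (g' x)) atTop (𝓝 c) := by
      intro c
      apply tendsto_congr'
      filter_upwards [hg'] with x hx
      rw [hkap, hx]
    have htrue : ∀ c : ℝ, Tendsto (fun x : ℝ => x * (q x / (ρ - 1) -
        U.betaStar μ ν (q x))) atTop (𝓝 c) →
          Tendsto (fun x : ℝ => π.real {w | x < w.1} /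
            (Real.exp (c / (ρ / (ρ - 1))) / ((2 - ρ) * ∫ t, t ∂ν) *
              integratedTail μ (ρ / (ρ - 1) * x))) atTop (𝓝 1) := by
      intro c hc
      have hw := U.whittK_true S T hK hδ hdom hE ((hcg c).1 hc)
      rw [h1, hη] at hw
      exact hw
    refine ⟨⟨?_, ?_⟩, ?_, htrue, ?_⟩
    · rintro ⟨γ, η, hγ, hη, hlim2⟩
      obtain ⟨c, hc⟩ := U.whittK_only S T hK hδ hdom hE hγ hη hlim2
      exact ⟨c, (hcg c).2 hc⟩
    · rintro ⟨c, hc⟩
      refine ⟨_, _, ?_, ?_, htrue c hc⟩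
      · have : 0 < 2 - ρ := by linarith
        positivity
      · exact hηpos
    · rw [U.whittK_bdd S T hK hδ hdom hE]
      constructor
      · rintro ⟨C, hC⟩
        refine ⟨C, ?_⟩
        filter_upwards [hC, hg'] with x h2 h3
        rw [hkap, ← h3]
        exact h2
      · rintro ⟨C, hC⟩
        refine ⟨C, ?_⟩
        filter_upwards [hC, hg'] with x h2 h3
        rw [h3, ← hkap]
        exact h2
    · intro hν2 c
      rw [hcg]
      have hk2 := U.kap_two S hν2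
      have hkp := U.kapC_pos S hν2
      have v1 : (∫ s, s ^ 2 ∂μ) - (∫ s, s ∂μ) ^ 2 = Var[fun s => s; μ] := by
        have h3 : MemLp (fun s : ℝ => s) 2 μ := by
          refine (memLp_two_iff_integrable_sq (by fun_prop)).mpr ?_
          exact Cv.law_integrable_pow S.haz S.law 2
        rw [variance_eq_sub h3]
        simp
      have v2 : (∫ t, t ^ 2 ∂ν) - (∫ t, t ∂ν) ^ 2 = Var[fun t => t; ν] := by
        have h3 : MemLp (fun t : ℝ => t) 2 ν :=
          (memLp_two_iff_integrable_sq (by fun_prop)).mpr hν2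
        rw [variance_eq_sub h3]
        simp
      have hE' : ∫ s, s ∂μ = ρ * ∫ t, t ∂ν := by
        rw [hρ]; field_simp
      have hρ1' : 0 < ρ - 1 := by linarith
      have hρ0 : 0 < ρ := by linarith
      have e3 : c * (Var[fun s => s; μ] + ρ ^ 2 * Var[fun t => t; ν]) /
                (2 * (ρ - 1) ^ 3 * ∫ t, t ∂ν) = Gen.kap μ ν * c := by
        unfold Gen.kap
        rw [v1, v2, hη, hE']
        have e4 : ρ / (ρ - 1) - 1 = 1 / (ρ - 1) := by field_simp; ring
        have e5 : ρ * (∫ t, t ∂ν) - ∫ t, t ∂ν = (ρ - 1) * ∫ t, t ∂ν := by ring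
        rw [e4, e5]
        field_simp
      rw [e3]
      -- `κ(g' x) / (g' x)² → κ₂`
      have hg0 : Tendsto g' atTop (𝓝[>] 0) := by
        apply tendsto_nhdsWithin_of_tendsto_nhds_of_eventually_within
        · refine hlim.congr' ?_
          filter_upwards [hg'] with x hx
          rw [hx]
        · filter_upwards [eventually_gt_atTop 0] with x hx
          exact S.haz.pos x hx
      have hr : Tendsto (fun x => U.kapS μ ν (g' x) / g' x ^ 2) atTop (𝓝 (Gen.kap μ ν)) :=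
        hk2.comp hg0
      have hgq : Tendsto (fun x : ℝ => x * q x ^ 2) atTop (𝓝 c) ↔
          Tendsto (fun x : ℝ => x * g' x ^ 2) atTop (𝓝 c) := by
        apply tendsto_congr'
        filter_upwards [hg'] with x hx
        rw [hx]
      rw [hgq]
      constructor
      · intro hc
        have h2 := hr.mul hc
        refine h2.congr' ?_
        filter_upwards [eventually_gt_atTop 0] with x hx
        have := S.haz.pos x hx
        field_simp
      · intro hc
        have h2 := hc.div hr hkp.ne'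
        rw [mul_div_cancel_left₀ _ hkp.ne'] at h2
        refine h2.congr' ?_
        have hne : ∀ᶠ x : ℝ in atTop, 0 < U.kapS μ ν (g' x) := by
          filter_upwards [hr.eventually (lt_mem_nhds hkp), eventually_gt_atTop 0] with x hx hx0
          have := S.haz.pos x hx0
          rw [lt_div_iff₀ (by positivity), zero_mul] at hx
          exact hx
        filter_upwards [eventually_gt_atTop 0, hne] with x hx hx2
        have := S.haz.pos x hx
        simp only [Pi.div_apply]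
        field_simp

end Pool.Agent.Results.MP_04add8_pr.AllConcave
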