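import Mathlib
import Pool.Agent.Lib.MP_04add8_pr.Exist2

open MeasureTheory ProbabilityTheory Filter Topology
open scoped ENNReal
open Pool.Agent.Lib.MP_04add8_pr

namespace Pool.Agent.Results.MP_04add8_pr.WhittFails

/-- Whitt's formula for the two-server queue fails for Weibull service times. -/
theorem result (a : ℝ) (ha0 : 0 < a) (ha1 : a < 1)
    (μ ν : Measure ℝ) [IsProbabilityMeasure μ] [IsProbabilityMeasure ν]
    (hμ : ∀ x : ℝ, 0 ≤ x → μ (Set.Ioi x) = ENNReal.ofReal (Real.exp (-(x ^ a))))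
    (hν : ν (Set.Iio 0) = 0) (hνi : Integrable (fun t : ℝ => t) ν)
    (ρ : ℝ) (hρ : ρ = (∫ s, s ∂μ) / (∫ t, t ∂ν)) (hρ1 : 1 < ρ) (hρ2 : ρ < 2)
    (hcase : 1 / 2 < a ∨ 2 ≤ (ρ / (ρ - 1)) ^ a) :
    (∃ π : Measure (ℝ × ℝ), IsStationaryKW μ ν π) ∧
    ∀ π : Measure (ℝ × ℝ), IsStationaryKW μ ν π →
      (∀ η : ℝ, 0 < η → η < min (2 ^ (1 / a)) (ρ / (ρ - 1)) →
        Tendsto (fun x : ℝ => π.real {w | x < w.1} / integratedTail μ (η * x)) atTop (𝓝 0)) ∧
      (∀ η : ℝ, min (2 ^ (1 / a)) (ρ / (ρ - 1)) ≤ η →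
        Tendsto (fun x : ℝ => π.real {w | x < w.1} / integratedTail μ (η * x)) atTop atTop) ∧
      (∀ (η : ℝ) (γ : ℝ → ℝ) (c C : ℝ), 0 < η → 0 < c → (∀ x, c ≤ γ x ∧ γ x ≤ C) →
        ¬ Tendsto (fun x : ℝ => π.real {w | x < w.1} / (γ x * integratedTail μ (η * x)))
          atTop (𝓝 1)) := by
  obtain ⟨hm, hgt, hlt, hη0⟩ := load_facts ha0 hν hρ hρ1 hρ2
  refine ⟨exists_stationary ha0 ha1 hμ hν hνi hm hgt hlt, ?_⟩
  intro π hπ
  set η0 := ρ / (ρ - 1) with hη0def
  have hη00 : 0 < η0 := div_pos (by linarith) (by linarith)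
  have h2a : ((2 : ℝ) ^ (1 / a)) ^ a = 2 := by
    rw [← Real.rpow_mul (by norm_num), one_div_mul_cancel ha0.ne', Real.rpow_one]
  have hzero : ∀ η : ℝ, 0 < η → η < min (2 ^ (1 / a)) η0 →
      Tendsto (fun x : ℝ => π.real {w | x < w.1} / integratedTail μ (η * x)) atTop (𝓝 0) := by
    intro η hη hlt'
    apply ratio_zero ha0 ha1 hμ hν hνi hm hgt hlt hπ hη
    rw [← hη0]
    apply lt_min
    · calc η ^ a < ((2 : ℝ) ^ (1 / a)) ^ a := by
            have := hlt'.trans_le (min_le_left _ _)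
            gcongr
        _ = 2 := h2a
    · have := hlt'.trans_le (min_le_right _ _)
      gcongr
  have htop : ∀ η : ℝ, min (2 ^ (1 / a)) η0 ≤ η →
      Tendsto (fun x : ℝ => π.real {w | x < w.1} / integratedTail μ (η * x)) atTop atTop := by
    intro η hle
    have hmin : 0 < min ((2 : ℝ) ^ (1 / a)) η0 := lt_min (by positivity) hη00
    have hη : 0 < η := hmin.trans_le hle
    by_cases h2 : (2 : ℝ) ^ (1 / a) ≤ η
    · apply ratio_top_two ha0 ha1 hμ hν hνi hm hπ hη
      rw [← h2a]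
      gcongr
    · have h3 : η0 ≤ η := by
        rcases min_le_iff.mp hle with h | h
        · exact absurd h h2
        · exact h
      have h4 : 1 / 2 < a := by
        rcases hcase with h | h
        · exact h
        · exfalso
          apply h2
          have h5 : (2 : ℝ) ^ (1 / a) ≤ η0 := by
            have h6 : (2 : ℝ) ^ (1 / a) ≤ (η0 ^ a) ^ (1 / a) := by gcongr
            rwa [← Real.rpow_mul hη00.le, mul_one_div_cancel ha0.ne', Real.rpow_one] at h6
          exact h5.trans h3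
      apply ratio_top_one ha0 ha1 hμ hν hνi hm hgt hπ _ (Or.inl h4)
      rwa [← hη0]
  refine ⟨hzero, htop, ?_⟩
  intro η γ c C hη hc hγ htend
  have hC : 0 < C := hc.trans_le ((hγ 0).1.trans (hγ 0).2)
  have hratio : ∀ x, π.real {w | x < w.1} / integratedTail μ (η * x) =
      γ x * (π.real {w | x < w.1} / (γ x * integratedTail μ (η * x))) := by
    intro x
    have : γ x ≠ 0 := (hc.trans_le (hγ x).1).ne'
    rw [mul_div_assoc', mul_div_mul_left _ _ this]
  rcases lt_or_ge η (min (2 ^ (1 / a)) η0) with h | h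
  · -- ratio tends to zero, but is at least `c / 2` eventually
    have h1 := hzero η hη h
    have h2 := h1.eventually_lt_const (by positivity : (0 : ℝ) < c / 2)
    have h3 := htend.eventually_const_lt (by norm_num : (1 / 2 : ℝ) < 1)
    obtain ⟨x, hx2, hx3⟩ := (h2.and h3).exists
    rw [hratio] at hx2
    have h4 : c * (1 / 2) ≤ γ x * (π.real {w | x < w.1} / (γ x * integratedTail μ (η * x))) := by
      have h5 := (hγ x).1
      have hγ0 : 0 < γ x := hc.trans_le h5
      exact mul_le_mul h5 hx3.le (by norm_num) hγ0.le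
    linarith
  · have h1 := htop η h
    have h2 := h1.eventually_gt_atTop (C * 2)
    have h3 := htend.eventually_lt_const (by norm_num : (1 : ℝ) < 2)
    obtain ⟨x, hx2, hx3⟩ := (h2.and h3).exists
    rw [hratio] at hx2
    have hγ0 : 0 < γ x := hc.trans_le (hγ x).1
    have h4 : γ x * (π.real {w | x < w.1} / (γ x * integratedTail μ (η * x))) ≤ C * 2 := by
      calc γ x * (π.real {w | x < w.1} / (γ x * integratedTail μ (η * x))) ≤ γ x * 2 := by
            gcongr
        _ ≤ C * 2 := by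
            have := (hγ x).2
            gcongr
    linarith

end Pool.Agent.Results.MP_04add8_pr.WhittFails
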