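import Mathlib
import Pool.Agent.Results.MP_04add8_pr.AllConcave
import Pool.Agent.Results.MP_04add8_pr.WhittFails
import Pool.Agent.Lib.MP_04add8_pr.U.KapP
import Pool.Agent.Lib.MP_04add8_pr.Crit.WhittTwo

open MeasureTheory ProbabilityTheory Filter Topology
open scoped ENNReal
open Pool.Agent.Lib.MP_04add8_pr

namespace Pool.Agent.Results.MP_04add8_pr.WhittDecision

/-- the substitution `θ = a x ^ (a - 1)` -/
private lemma subst_facts {a : ℝ} (ha0 : 0 < a) (ha1 : a < 1) :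
    Tendsto (fun x : ℝ => a * x ^ (a - 1)) atTop (𝓝[>] 0) ∧
    Tendsto (fun θ : ℝ => (a / θ) ^ (1 / (1 - a))) (𝓝[>] 0) atTop ∧
    (∀ x : ℝ, 0 < x → x * (a * x ^ (a - 1)) ^ (1 / (1 - a)) = a ^ (1 / (1 - a))) ∧
    (∀ θ : ℝ, 0 < θ → a * ((a / θ) ^ (1 / (1 - a))) ^ (a - 1) = θ) := by
  have h1a : 0 < 1 - a := by linarith
  refine ⟨?_, ?_, ?_, ?_⟩
  · apply tendsto_nhdsWithin_of_tendsto_nhds_of_eventually_within
    · have h1 := (tendsto_rpow_neg_atTop h1a).const_mul a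
      rw [mul_zero] at h1
      refine h1.congr fun x => ?_
      congr 2
      ring
    · filter_upwards [eventually_gt_atTop 0] with x hx
      exact Set.mem_Ioi.2 (mul_pos ha0 (Real.rpow_pos_of_pos hx _))
  · have h1 : Tendsto (fun θ : ℝ => a / θ) (𝓝[>] 0) atTop := by
      have := tendsto_inv_nhdsGT_zero (𝕜 := ℝ)
      exact (this.const_mul_atTop ha0).congr fun θ => by rw [div_eq_mul_inv]
    exact (tendsto_rpow_atTop (by positivity)).comp h1
  · intro x hx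
    rw [Real.mul_rpow ha0.le (Real.rpow_nonneg hx.le _), ← Real.rpow_mul hx.le]
    have e : (a - 1) * (1 / (1 - a)) = -1 := by
      field_simp
      ring
    rw [e, Real.rpow_neg_one]
    field_simp
  · intro θ hθ
    have h2 : 0 < a / θ := by positivity
    rw [← Real.rpow_mul h2.le]
    have e : 1 / (1 - a) * (a - 1) = -1 := by
      field_simp
      ring
    rw [e, Real.rpow_neg_one]
    field_simp

private lemma crit_tendsto {a : ℝ} (ha0 : 0 < a) (ha1 : a < 1) (k : ℝ → ℝ) (c : ℝ) :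
    Tendsto (fun x : ℝ => x * k (a * x ^ (a - 1))) atTop (𝓝 (a ^ (1 / (1 - a)) * c)) ↔
      Tendsto (fun θ : ℝ => k θ / θ ^ (1 / (1 - a))) (𝓝[>] 0) (𝓝 c) := by
  obtain ⟨f1, f2, f3, f4⟩ := subst_facts ha0 ha1
  have hap : 0 < a ^ (1 / (1 - a)) := Real.rpow_pos_of_pos ha0 _
  constructor
  · intro h1
    have h2 := (h1.comp f2).div_const (a ^ (1 / (1 - a)))
    rw [mul_div_cancel_left₀ _ hap.ne'] at h2
    refine h2.congr' ?_
    filter_upwards [self_mem_nhdsWithin] with θ hθ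
    have hθ : 0 < θ := hθ
    simp only [Function.comp]
    rw [f4 θ hθ, Real.div_rpow ha0.le hθ.le]
    have hθp : 0 < θ ^ (1 / (1 - a)) := Real.rpow_pos_of_pos hθ _
    field_simp
  · intro h1
    have h2 := (h1.comp f1).const_mul (a ^ (1 / (1 - a)))
    refine h2.congr' ?_
    filter_upwards [eventually_gt_atTop 0] with x hx
    have h3 := f3 x hx
    have hp : 0 < (a * x ^ (a - 1)) ^ (1 / (1 - a)) :=
      Real.rpow_pos_of_pos (mul_pos ha0 (Real.rpow_pos_of_pos hx _)) _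
    simp only [Function.comp]
    rw [← h3]
    field_simp

private lemma crit_bdd {a : ℝ} (ha0 : 0 < a) (ha1 : a < 1) (k : ℝ → ℝ) :
    (∃ C : ℝ, ∀ᶠ x : ℝ in atTop, x * k (a * x ^ (a - 1)) ≤ C) ↔
      ∃ C : ℝ, ∀ᶠ θ : ℝ in 𝓝[>] 0, k θ ≤ C * θ ^ (1 / (1 - a)) := by
  obtain ⟨f1, f2, f3, f4⟩ := subst_facts ha0 ha1
  have hap : 0 < a ^ (1 / (1 - a)) := Real.rpow_pos_of_pos ha0 _
  constructor
  · rintro ⟨C, hC⟩
    refine ⟨C / a ^ (1 / (1 - a)), ?_⟩
    filter_upwards [f2.eventually hC, self_mem_nhdsWithin] with θ h1 hθ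
    have hθ : 0 < θ := hθ
    rw [f4 θ hθ, Real.div_rpow ha0.le hθ.le] at h1
    have hθp : 0 < θ ^ (1 / (1 - a)) := Real.rpow_pos_of_pos hθ _
    rw [div_mul_eq_mul_div, le_div_iff₀ hap]
    rw [div_mul_eq_mul_div, div_le_iff₀ hθp] at h1
    linarith
  · rintro ⟨C, hC⟩
    refine ⟨C * a ^ (1 / (1 - a)), ?_⟩
    filter_upwards [f1.eventually hC, eventually_gt_atTop 0] with x h1 hx
    have h2 := mul_le_mul_of_nonneg_left h1 hx.le
    have h3 := f3 x hx
    have e : x * (C * (a * x ^ (a - 1)) ^ (1 / (1 - a))) =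
        C * (x * (a * x ^ (a - 1)) ^ (1 / (1 - a))) := by ring
    rw [e, h3] at h2
    exact h2

/-- Whitt's formula for the two-server queue with Weibull service times, decided for every
interarrival law of finite mean, with a constant `γ` and with a bounded `γ(x)`. -/
theorem result (a : ℝ) (ha0 : 0 < a) (ha1 : a < 1)
    (μ ν : Measure ℝ) [IsProbabilityMeasure μ] [IsProbabilityMeasure ν]
    (hμ : ∀ x : ℝ, 0 ≤ x → μ (Set.Ioi x) = ENNReal.ofReal (Real.exp (-(x ^ a))))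
    (hν : ν (Set.Iio 0) = 0) (hνi : Integrable (fun t : ℝ => t) ν)
    (ρ : ℝ) (hρ : ρ = (∫ s, s ∂μ) / (∫ t, t ∂ν)) (hρ1 : 1 < ρ) (hρ2 : ρ < 2) :
    (∃ π : Measure (ℝ × ℝ), IsStationaryKW μ ν π) ∧
    ∀ π : Measure (ℝ × ℝ), IsStationaryKW μ ν π →
      ((∃ γ η : ℝ, 0 < γ ∧ 0 < η ∧
        Tendsto (fun x : ℝ => π.real {w | x < w.1} / (γ * integratedTail μ (η * x))) atTop (𝓝 1)) ↔
          a ≤ 1 / 2 ∧ (ρ / (ρ - 1)) ^ a < 2 ∧ ∃ L : ℝ, Tendsto (fun s : ℝ =>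
            (∫ t, (Real.exp (-(s * t)) - 1 + s * t) ∂ν) / s ^ (1 / (1 - a))) (𝓝[>] 0) (𝓝 L)) ∧
      ((∃ η c₁ c₂ : ℝ, 0 < η ∧ 0 < c₁ ∧ ∀ᶠ x : ℝ in atTop,
          c₁ * integratedTail μ (η * x) ≤ π.real {w | x < w.1} ∧
          π.real {w | x < w.1} ≤ c₂ * integratedTail μ (η * x)) ↔
          a ≤ 1 / 2 ∧ (ρ / (ρ - 1)) ^ a < 2 ∧ ∃ C : ℝ, ∀ᶠ s : ℝ in 𝓝[>] 0,
            ∫ t, (Real.exp (-(s * t)) - 1 + s * t) ∂ν ≤ C * s ^ (1 / (1 - a))) ∧
      (a ≤ 1 / 2 → (ρ / (ρ - 1)) ^ a < 2 → ∀ L : ℝ, Tendsto (fun s : ℝ =>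
            (∫ t, (Real.exp (-(s * t)) - 1 + s * t) ∂ν) / s ^ (1 / (1 - a))) (𝓝[>] 0) (𝓝 L) →
        Tendsto (fun x : ℝ => π.real {w | x < w.1} /
          (Real.exp (if a = 1 / 2 then
              (Var[fun s => s; μ] + ρ ^ 2 * (2 * L - (∫ t, t ∂ν) ^ 2)) /
                (8 * ρ * (ρ - 1) ^ 2 * ∫ t, t ∂ν)
              else (a * (ρ / (ρ - 1))) ^ (1 / (1 - a)) * L / (ρ * ∫ t, t ∂ν)) /
            ((2 - ρ) * ∫ t, t ∂ν) * integratedTail μ (ρ / (ρ - 1) * x))) atTop (𝓝 1)) ∧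
      (a ≤ 1 / 2 → Integrable (fun t : ℝ => t ^ 2) ν → Tendsto (fun s : ℝ =>
        (∫ t, (Real.exp (-(s * t)) - 1 + s * t) ∂ν) / s ^ (1 / (1 - a))) (𝓝[>] 0)
          (𝓝 (if a = 1 / 2 then (∫ t, t ^ 2 ∂ν) / 2 else 0))) := by
  have h1a : 0 < 1 - a := by linarith
  have hρ1' : 0 < ρ - 1 := by linarith
  have hρ0 : 0 < ρ := by linarith
  have hρ2' : 0 < 2 - ρ := by linarith
  have hν0 := BetaAux.ae_nonneg hν
  obtain ⟨hm, hgt, hlt, hη0⟩ := load_facts ha0 hν hρ hρ1 hρ2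
  have hηpos : 0 < ρ / (ρ - 1) := div_pos (by linarith) (by linarith)
  -- the hypotheses of the general theorem
  have hμ0 : μ (Set.Iio 0) = 0 := by
    have h1 := hμ 0 le_rfl
    rw [Real.zero_rpow ha0.ne', neg_zero, Real.exp_zero, ENNReal.ofReal_one] at h1
    have h2 : (Set.Iio (0 : ℝ)) ⊆ (Set.Ioi 0)ᶜ := by
      intro x hx
      simp only [Set.mem_compl_iff, Set.mem_Ioi, not_lt]
      exact (Set.mem_Iio.1 hx).le
    exact measure_mono_null h2 ((prob_compl_eq_zero_iff measurableSet_Ioi).2 h1)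
  have hd : ∀ x : ℝ, 0 < x → HasDerivAt (fun x : ℝ => x ^ a) (a * x ^ (a - 1)) x := by
    intro x hx
    exact Real.hasDerivAt_rpow_const (Or.inl hx.ne')
  have hq : ∀ x : ℝ, 0 < x → 0 < a * x ^ (a - 1) := fun x hx =>
    mul_pos ha0 (Real.rpow_pos_of_pos hx _)
  have hanti : ∀ x y : ℝ, 0 < x → x ≤ y → a * y ^ (a - 1) ≤ a * x ^ (a - 1) := by
    intro x y hx hxy
    exact mul_le_mul_of_nonneg_left
      (Real.rpow_le_rpow_of_nonpos hx hxy (by linarith)) ha0.le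
  have hcurv : ∃ C : ℝ, ∀ x y : ℝ, 0 < x → x ≤ y →
      x ^ C * (a * x ^ (a - 1)) ≤ y ^ C * (a * y ^ (a - 1)) := by
    refine ⟨1 - a, fun x y hx hxy => ?_⟩
    have e : ∀ z : ℝ, 0 < z → z ^ (1 - a) * (a * z ^ (a - 1)) = a := by
      intro z hz
      have : z ^ (1 - a) * (a * z ^ (a - 1)) = a * (z ^ (1 - a) * z ^ (a - 1)) := by ring
      rw [this, ← Real.rpow_add hz]
      simp
    rw [e x hx, e y (hx.trans_le hxy)]
  obtain ⟨f1, -, -, -⟩ := subst_facts ha0 ha1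
  have hlim : Tendsto (fun x : ℝ => a * x ^ (a - 1)) atTop (𝓝 0) :=
    f1.mono_right nhdsWithin_le_nhds
  have hxq : ∀ x : ℝ, 0 < x → x * (a * x ^ (a - 1)) = a * x ^ a := by
    intro x hx
    have e : x * (a * x ^ (a - 1)) = a * (x ^ (1 : ℝ) * x ^ (a - 1)) := by
      rw [Real.rpow_one]; ring
    rw [e, ← Real.rpow_add hx]
    congr 2
    ring
  have hbig : Tendsto (fun x : ℝ => x * (a * x ^ (a - 1))) atTop atTop := by
    refine ((tendsto_rpow_atTop ha0).const_mul_atTop ha0).congr' ?_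
    filter_upwards [eventually_gt_atTop 0] with x hx
    rw [hxq x hx]
  have htail : Tendsto (fun x : ℝ => μ.real (Set.Ioi x) / Real.exp (-(x ^ a))) atTop (𝓝 1) := by
    refine tendsto_const_nhds.congr' ?_
    filter_upwards [eventually_ge_atTop 0] with x hx
    unfold Measure.real
    rw [hμ x hx, ENNReal.toReal_ofReal (Real.exp_pos _).le, div_self (Real.exp_pos _).ne']
  have hb0 : ∀ᶠ x : ℝ in atTop, 0 < √x := by
    filter_upwards [eventually_gt_atTop 0] with x hx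
    exact Real.sqrt_pos.2 hx
  have hb1 : Tendsto (fun x : ℝ => ((√x) ^ a - √x * (a * (√x) ^ (a - 1))) / Real.log x)
      atTop atTop := by
    have h1 : Tendsto (fun x : ℝ => x ^ (a / 2) / Real.log x) atTop atTop := by
      have h2 := (isLittleO_log_rpow_atTop (show 0 < a / 2 by positivity))
      have h3 := h2.tendsto_div_nhds_zero
      have h4 : Tendsto (fun x : ℝ => Real.log x / x ^ (a / 2)) atTop (𝓝[>] 0) := by
        apply tendsto_nhdsWithin_of_tendsto_nhds_of_eventually_within _ h3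
        filter_upwards [eventually_gt_atTop 1] with x hx
        exact Set.mem_Ioi.2 (div_pos (Real.log_pos hx) (Real.rpow_pos_of_pos (by linarith) _))
      refine h4.inv_tendsto_nhdsGT_zero.congr fun x => ?_
      simp only [Pi.inv_apply, inv_div]
    refine (h1.const_mul_atTop h1a).congr' ?_
    filter_upwards [eventually_gt_atTop 0] with x hx
    have hs := Real.sqrt_pos.2 hx
    rw [hxq _ hs]
    have e : (√x) ^ a = x ^ (a / 2) := by
      rw [Real.sqrt_eq_rpow, ← Real.rpow_mul hx.le]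
      congr 1
      ring
    rw [e]
    ring
  have hb2 : Tendsto (fun x : ℝ => (a * (√x) ^ (a - 1)) / (a * x ^ (a - 1))) atTop atTop := by
    refine (tendsto_rpow_atTop (show 0 < (1 - a) / 2 by positivity)).congr' ?_
    filter_upwards [eventually_gt_atTop 0] with x hx
    have hs := Real.sqrt_pos.2 hx
    rw [mul_div_mul_left _ _ ha0.ne', Real.sqrt_eq_rpow, ← Real.rpow_mul hx.le,
      ← Real.rpow_sub hx]
    congr 1
    ring
  obtain ⟨hex, hall⟩ := AllConcave.result μ ν hμ0 hν hνi (fun x : ℝ => x ^ a)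
    (fun x : ℝ => a * x ^ (a - 1)) 0 le_rfl hd hq hanti hcurv hlim hbig htail ρ hρ hρ1 hρ2
    (fun x : ℝ => √x) hb0 hb1 hb2
  obtain ⟨g, g', S, -, -⟩ := Cv.exists_stdC μ ν hμ0 hν hνi (fun x : ℝ => x ^ a)
    (fun x : ℝ => a * x ^ (a - 1)) 0 le_rfl hd hq hanti hcurv hlim hbig htail ρ hρ hρ1 hρ2
  have hη : Gen.eta μ ν = ρ / (ρ - 1) := by
    unfold Gen.eta
    rw [hη0]
  have hkap : ∀ θ : ℝ, θ / (ρ - 1) - U.betaStar μ ν θ = U.kapS μ ν θ := by
    intro θ
    unfold U.kapS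
    rw [hη]
    have : ρ - 1 ≠ 0 := by linarith
    field_simp
    ring
  have hE' : ∫ s, s ∂μ = ρ * ∫ t, t ∂ν := by
    rw [hρ]; field_simp
  obtain ⟨m, hmd⟩ : ∃ m, m = ∫ t, t ∂ν := ⟨_, rfl⟩
  have hd0 : (∫ s, s ∂μ) - ∫ t, t ∂ν = (ρ - 1) * m := by
    rw [hE', ← hmd]; ring
  have hφ : ∀ s : ℝ, 0 < s → ∫ t, (Real.exp (-(s * t)) - 1 + s * t) ∂ν = U.lphi ν s :=
    fun s hs => (U.lphi_eq hν0 hνi hs.le).symm
  have hφt : ∀ L : ℝ, Tendsto (fun s : ℝ => (∫ t, (Real.exp (-(s * t)) - 1 + s * t) ∂ν) /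
      s ^ (1 / (1 - a))) (𝓝[>] 0) (𝓝 L) ↔
      Tendsto (fun s => U.lphi ν s / s ^ (1 / (1 - a))) (𝓝[>] 0) (𝓝 L) := by
    intro L
    apply tendsto_congr'
    filter_upwards [self_mem_nhdsWithin] with s hs
    rw [hφ s hs]
  have hφb : (∃ C : ℝ, ∀ᶠ s : ℝ in 𝓝[>] 0,
      ∫ t, (Real.exp (-(s * t)) - 1 + s * t) ∂ν ≤ C * s ^ (1 / (1 - a))) ↔
      ∃ C : ℝ, ∀ᶠ s : ℝ in 𝓝[>] 0, U.lphi ν s ≤ C * s ^ (1 / (1 - a)) := by
    constructor
    · rintro ⟨C, hC⟩
      refine ⟨C, ?_⟩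
      filter_upwards [hC, self_mem_nhdsWithin] with s h1 hs
      rwa [hφ s hs] at h1
    · rintro ⟨C, hC⟩
      refine ⟨C, ?_⟩
      filter_upwards [hC, self_mem_nhdsWithin] with s h1 hs
      rwa [← hφ s hs] at h1
  have hap : 0 < a ^ (1 / (1 - a)) := Real.rpow_pos_of_pos ha0 _
  have hηp : 0 < (ρ / (ρ - 1)) ^ (1 / (1 - a)) := Real.rpow_pos_of_pos hηpos _
  have hp2 : a ≤ 1 / 2 → 1 / (1 - a) ≤ 2 := by
    intro ha2
    rw [div_le_iff₀ h1a]
    linarith
  -- the criterion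
  have hcrit : a ≤ 1 / 2 → ∀ L : ℝ,
      (Tendsto (fun s : ℝ => (∫ t, (Real.exp (-(s * t)) - 1 + s * t) ∂ν) /
        s ^ (1 / (1 - a))) (𝓝[>] 0) (𝓝 L) ↔
      Tendsto (fun x : ℝ => x * ((a * x ^ (a - 1)) / (ρ - 1) -
        U.betaStar μ ν (a * x ^ (a - 1)))) atTop (𝓝 (a ^ (1 / (1 - a)) *
          ((L * (ρ / (ρ - 1)) ^ (1 / (1 - a)) + (if 1 / (1 - a) = 2 then U.kA μ ν else 0)) /
          ((ρ - 1) * m))))) := by
    intro ha2 L
    rw [hφt, U.kap_pow S (hp2 ha2) L, hη, hd0,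
      ← crit_tendsto ha0 ha1 (fun θ => U.kapS μ ν θ)]
    apply tendsto_congr
    intro x
    rw [hkap]
  have hcritb : a ≤ 1 / 2 →
      ((∃ C : ℝ, ∀ᶠ s : ℝ in 𝓝[>] 0,
        ∫ t, (Real.exp (-(s * t)) - 1 + s * t) ∂ν ≤ C * s ^ (1 / (1 - a))) ↔
      ∃ C : ℝ, ∀ᶠ x : ℝ in atTop, x * ((a * x ^ (a - 1)) / (ρ - 1) -
        U.betaStar μ ν (a * x ^ (a - 1))) ≤ C) := by
    intro ha2
    rw [hφb, U.kap_pow_bdd S (hp2 ha2), ← crit_bdd ha0 ha1 (fun θ => U.kapS μ ν θ)]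
    simp only [hkap]
  -- one big job is cheaper
  have hdom : (ρ / (ρ - 1)) ^ a < 2 → ∃ δ : ℝ, 0 < δ ∧ ∀ᶠ x : ℝ in atTop,
      (1 + δ) * (ρ / (ρ - 1) * x) ^ a ≤ 2 * x ^ a := by
    intro h2
    have hηa : 0 < (ρ / (ρ - 1)) ^ a := Real.rpow_pos_of_pos hηpos _
    refine ⟨2 / (ρ / (ρ - 1)) ^ a - 1, ?_, ?_⟩
    · rw [sub_pos, lt_div_iff₀ hηa]
      linarith
    · filter_upwards [eventually_gt_atTop 0] with x hx
      rw [Real.mul_rpow hηpos.le hx.le]
      apply le_of_eq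
      field_simp
      ring
  refine ⟨hex, fun π hπ => ?_⟩
  obtain ⟨-, -, hW⟩ := hall π hπ
  -- failure outside
  have hfail : ¬ (a ≤ 1 / 2 ∧ (ρ / (ρ - 1)) ^ a < 2) → ∀ η : ℝ, 0 < η →
      Tendsto (fun x : ℝ => π.real {w | x < w.1} / integratedTail μ (η * x)) atTop (𝓝 0) ∨
      Tendsto (fun x : ℝ => π.real {w | x < w.1} / integratedTail μ (η * x)) atTop atTop := by
    intro hno η hη1
    have hcase : 1 / 2 < a ∨ 2 ≤ (ρ / (ρ - 1)) ^ a := by
      by_contra hc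
      rw [not_or, not_lt, not_le] at hc
      exact hno hc
    obtain ⟨-, h1⟩ := WhittFails.result a ha0 ha1 μ ν hμ hν hνi ρ hρ hρ1 hρ2 hcase
    obtain ⟨h2, h3, -⟩ := h1 π hπ
    rcases lt_or_ge η (min (2 ^ (1 / a)) (ρ / (ρ - 1))) with h | h
    · exact Or.inl (h2 η hη1 h)
    · exact Or.inr (h3 η h)
  have hIpos : ∀ η : ℝ, 0 < η → ∀ᶠ x : ℝ in atTop, 0 < integratedTail μ (η * x) := by
    intro η hη1
    have hi : Tendsto (fun x : ℝ => η * x) atTop atTop := tendsto_id.const_mul_atTop hη1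
    have hI := (Cv.integratedTail_asymp S.haz S.law).comp hi
    filter_upwards [hI.eventually_const_lt (show (1 / 2 : ℝ) < 1 by norm_num),
      eventually_gt_atTop 0] with x g2 hx
    simp only [Function.comp] at g2
    have p := Cv.Qf_pos S.haz (show 0 < η * x by positivity)
    rw [lt_div_iff₀ p] at g2
    linarith
  refine ⟨?_, ?_, ?_, ?_⟩
  · -- constant `γ`
    constructor
    · rintro ⟨γ, η, hγ, hη1, hlim2⟩
      have hyes : a ≤ 1 / 2 ∧ (ρ / (ρ - 1)) ^ a < 2 := by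
        by_contra hno
        have h1 : Tendsto (fun x : ℝ => π.real {w | x < w.1} / integratedTail μ (η * x)) atTop
            (𝓝 γ) := by
          have h2 := hlim2.const_mul γ
          rw [mul_one] at h2
          refine h2.congr' ?_
          filter_upwards [hIpos η hη1] with x hx
          field_simp
        rcases hfail hno η hη1 with h2 | h2
        · exact hγ.ne (tendsto_nhds_unique h2 h1)
        · exact not_tendsto_nhds_of_tendsto_atTop h2 γ h1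
      obtain ⟨ha2, h2a⟩ := hyes
      obtain ⟨δ, hδ, hdo⟩ := hdom h2a
      obtain ⟨hiff, -, -, -⟩ := hW δ hδ hdo
      obtain ⟨c, hc⟩ := hiff.1 ⟨γ, η, hγ, hη1, hlim2⟩
      refine ⟨ha2, h2a, (c / a ^ (1 / (1 - a)) * ((ρ - 1) * m) -
        (if 1 / (1 - a) = 2 then U.kA μ ν else 0)) / (ρ / (ρ - 1)) ^ (1 / (1 - a)), ?_⟩
      rw [hcrit ha2]
      have hm0 : 0 < m := by rw [hmd]; exact hm
      have e : a ^ (1 / (1 - a)) * (((c / a ^ (1 / (1 - a)) * ((ρ - 1) * m) -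
          (if 1 / (1 - a) = 2 then U.kA μ ν else 0)) / (ρ / (ρ - 1)) ^ (1 / (1 - a)) *
          (ρ / (ρ - 1)) ^ (1 / (1 - a)) + (if 1 / (1 - a) = 2 then U.kA μ ν else 0)) /
          ((ρ - 1) * m)) = c := by
        rw [div_mul_cancel₀ _ hηp.ne', sub_add_cancel, mul_div_cancel_right₀ _ (by positivity),
          mul_div_cancel₀ _ hap.ne']
      rw [e]
      exact hc
    · rintro ⟨ha2, h2a, L, hL⟩
      obtain ⟨δ, hδ, hdo⟩ := hdom h2a
      obtain ⟨hiff, -, -, -⟩ := hW δ hδ hdo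
      exact hiff.2 ⟨_, (hcrit ha2 L).1 hL⟩
  · -- bounded `γ`
    constructor
    · rintro ⟨η, c₁, c₂, hη1, hc₁, hbd⟩
      have hyes : a ≤ 1 / 2 ∧ (ρ / (ρ - 1)) ^ a < 2 := by
        by_contra hno
        rcases hfail hno η hη1 with h2 | h2
        · obtain ⟨x, h3, h4, h5⟩ := ((h2.eventually_lt_const hc₁).and
            (hbd.and (hIpos η hη1))).exists
          rw [div_lt_iff₀ h5] at h3
          linarith [h4.1]
        · obtain ⟨x, h3, h4, h5⟩ := ((h2.eventually_gt_atTop c₂).and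
            (hbd.and (hIpos η hη1))).exists
          rw [lt_div_iff₀ h5] at h3
          linarith [h4.2]
      obtain ⟨ha2, h2a⟩ := hyes
      obtain ⟨δ, hδ, hdo⟩ := hdom h2a
      obtain ⟨-, hiff, -, -⟩ := hW δ hδ hdo
      exact ⟨ha2, h2a, (hcritb ha2).2 (hiff.1 ⟨η, c₁, c₂, hη1, hc₁, hbd⟩)⟩
    · rintro ⟨ha2, h2a, hC⟩
      obtain ⟨δ, hδ, hdo⟩ := hdom h2a
      obtain ⟨-, hiff, -, -⟩ := hW δ hδ hdo
      exact hiff.2 ((hcritb ha2).1 hC)
  · -- the constant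
    intro ha2 h2a L hL
    obtain ⟨δ, hδ, hdo⟩ := hdom h2a
    obtain ⟨-, -, hform, -⟩ := hW δ hδ hdo
    have h1 := hform _ ((hcrit ha2 L).1 hL)
    have hm0 : 0 < m := by rw [hmd]; exact hm
    have e : a ^ (1 / (1 - a)) *
          ((L * (ρ / (ρ - 1)) ^ (1 / (1 - a)) + (if 1 / (1 - a) = 2 then U.kA μ ν else 0)) /
          ((ρ - 1) * m)) / (ρ / (ρ - 1)) = if a = 1 / 2 then
              (Var[fun s => s; μ] + ρ ^ 2 * (2 * L - m ^ 2)) / (8 * ρ * (ρ - 1) ^ 2 * m)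
              else (a * (ρ / (ρ - 1))) ^ (1 / (1 - a)) * L / (ρ * m) := by
      by_cases h12 : a = 1 / 2
      · have hp : 1 / (1 - a) = 2 := by rw [h12]; norm_num
        rw [if_pos h12, if_pos hp, hp, h12]
        have v1 : (∫ s, s ^ 2 ∂μ) = Var[fun s => s; μ] + (∫ s, s ∂μ) ^ 2 := by
          have h3 : MemLp (fun s : ℝ => s) 2 μ := by
            refine (memLp_two_iff_integrable_sq (by fun_prop)).mpr ?_
            exact Cv.law_integrable_pow S.haz S.law 2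
          rw [variance_eq_sub h3]
          simp
        unfold U.kA
        rw [v1, hη, hE', ← hmd]
        norm_cast
        push_cast
        field_simp
        ring
      · have hp : ¬ 1 / (1 - a) = 2 := by
          intro hp
          apply h12
          rw [div_eq_iff h1a.ne'] at hp
          linarith
        rw [if_neg h12, if_neg hp, Real.mul_rpow ha0.le hηpos.le]
        field_simp
        ring
    rw [e, hmd] at h1
    exact h1
  · -- second moment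
    intro ha2 hν2
    rw [hφt]
    have h1 := BetaTwo.tendsto_lap_second hν0 hνi hν2
    by_cases h12 : a = 1 / 2
    · have hp : 1 / (1 - a) = 2 := by rw [h12]; norm_num
      rw [if_pos h12, hp]
      refine h1.congr' ?_
      filter_upwards [self_mem_nhdsWithin] with s hs
      unfold U.lphi
      norm_cast
    · rw [if_neg h12]
      have hlt2 : 1 / (1 - a) < 2 := by
        rw [div_lt_iff₀ h1a]
        rcases ha2.eq_or_lt with h | h
        · exact absurd h h12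
        · linarith
      have h3 : Tendsto (fun θ : ℝ => θ ^ (2 - 1 / (1 - a))) (𝓝[>] 0) (𝓝 0) := by
        have h4 := (Real.continuousAt_rpow_const 0 (2 - 1 / (1 - a))
          (Or.inr (by linarith))).tendsto
        rw [Real.zero_rpow (by linarith)] at h4
        exact h4.mono_left nhdsWithin_le_nhds
      have h5 := h1.mul h3
      rw [mul_zero] at h5
      refine h5.congr' ?_
      filter_upwards [self_mem_nhdsWithin] with s hs
      have hs : 0 < s := hs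
      have hsp : 0 < s ^ (1 / (1 - a)) := Real.rpow_pos_of_pos hs _
      have e1 : s ^ (2 - 1 / (1 - a)) = s ^ 2 / s ^ (1 / (1 - a)) := by
        rw [Real.rpow_sub hs]
        norm_cast
      rw [e1]
      unfold U.lphi
      field_simp

end Pool.Agent.Results.MP_04add8_pr.WhittDecision
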